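import Pool.Agent.Helper62.GR.Goals

/-!
# Project GR (MP_08df5f_al), packet TW: the word dynamics
-/

set_option autoImplicit false

namespace Pool.Agent.Helper18.GR

open Pool.Agent.Helper62.GR

theorem wt_append (v w : List Lt) : wt (v ++ w) = wt v + wt w := by
  induction v with
  | nil => simp [wt]
  | cons l v ih => simp only [List.cons_append, wt, ih]; ring

theorem wt_reverse (v : List Lt) : wt v.reverse = wt v := by
  induction v with
  | nil => rfl
  | cons l v ih => rw [List.reverse_cons, wt_append, ih]; simp only [wt]; ring

theorem wtl_ge (l : Lt) : 2 ≤ wtl l := by cases l <;> decide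

theorem wt_ge (v : List Lt) : 2 * v.length ≤ wt v := by
  induction v with
  | nil => simp [wt]
  | cons l v ih =>
    have := wtl_ge l
    simp only [List.length_cons, wt]
    omega

theorem alt_tail {l : Lt} {w : List Lt} (h : alt (l :: w) = true) : alt w = true := by
  cases w with
  | nil => rfl
  | cons x w =>
    simp only [alt, Bool.and_eq_true] at h
    exact h.2

theorem alt_suffix (v : List Lt) {w : List Lt} (h : alt (v ++ w) = true) : alt w = true := by
  induction v with
  | nil => exact h
  | cons l v ih => exact ih (alt_tail h)

/-- evaluation of a list of letters, then `k` -/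
def force : List Lt → (List Lt → Bool) → Bool
  | [], k => k []
  | .a :: w, k => force w (fun u => k (.a :: u))
  | .b :: w, k => force w (fun u => k (.b :: u))
  | .c :: w, k => force w (fun u => k (.c :: u))
  | .d :: w, k => force w (fun u => k (.d :: u))

theorem force_eq (w : List Lt) : ∀ k : List Lt → Bool, force w k = k w := by
  induction w with
  | nil => intro k; rfl
  | cons l w ih =>
    intro k
    cases l <;> exact ih _

/-- reduction of a reversed word, with an accumulator -/
def foldF (k : List Lt → Bool) : List Lt → List Lt → Bool
  | [], acc => k acc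
  | l :: r, acc => force (rc l acc) (fun acc' => foldF k r acc')

theorem foldF_eq (k : List Lt → Bool) (r : List Lt) : ∀ acc : List Lt,
    foldF k r acc = k (r.foldl (fun acc l => rc l acc) acc) := by
  induction r with
  | nil => intro acc; rfl
  | cons l r ih =>
    intro acc
    rw [foldF, force_eq, ih, List.foldl_cons]

theorem red_eq (w : List Lt) : red w = w.reverse.foldl (fun acc l => rc l acc) [] := by
  induction w with
  | nil => rfl
  | cons l w ih => rw [List.reverse_cons, List.foldl_append, ← ih]; rfl

/-- evaluation of `TT w`, then `k` -/
def TTF (w : List Lt) (k : List Lt → Bool) : Bool :=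
  force ((sec true w).reverse ++ sec false w) (fun r => foldF k r [])

theorem TTF_eq (w : List Lt) (k : List Lt → Bool) : TTF w k = k (TT w) := by
  rw [TTF, force_eq, foldF_eq, TT, red_eq, List.reverse_append, List.reverse_reverse]

/-- the four words -/
def fin4 : List Lt → Bool
  | [] => true
  | [.b] => true
  | [.a, .c] => true
  | [.a, .d] => true
  | _ => false

theorem fin4_true (u : List Lt) (h : fin4 u = true) :
    u = [] ∨ u = [.a, .c] ∨ u = [.a, .d] ∨ u = [.b] := by
  unfold fin4 at h
  split at h
  · exact Or.inl rfl
  · exact Or.inr (Or.inr (Or.inr rfl))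
  · exact Or.inr (Or.inl rfl)
  · exact Or.inr (Or.inr (Or.inl rfl))
  · exact absurd h (by decide)

/-- the test: the fifth iterate -/
def tst (w : List Lt) : Bool :=
  TTF w fun w => TTF w fun w => TTF w fun w => TTF w fun w => TTF w fin4

/-- all alternating words ending in `w`, of weight at most `30` -/
def chk : ℕ → List Lt → Bool
  | 0, _ => false
  | n + 1, w => decide (30 < wt w) || (tst w &&
      ((!alt (.a :: w) || chk n (.a :: w)) && ((!alt (.b :: w) || chk n (.b :: w)) &&
      ((!alt (.c :: w) || chk n (.c :: w)) && (!alt (.d :: w) || chk n (.d :: w))))))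

theorem chk_sound (n : ℕ) : ∀ w, chk n w = true → ∀ v : List Lt, v.length < n →
    alt (v ++ w) = true → wt (v ++ w) ≤ 30 → tst (v ++ w) = true := by
  induction n with
  | zero =>
    intro w _ v hv
    exact absurd hv (Nat.not_lt_zero _)
  | succ n ih =>
    intro w hw v hv halt hwt
    simp only [chk, Bool.or_eq_true, decide_eq_true_eq, Bool.and_eq_true,
      Bool.not_eq_true'] at hw
    rcases hw with hw | ⟨h0, ha, hb, hc, hd⟩
    · rw [wt_append] at hwt
      omega
    · rcases List.eq_nil_or_concat v with rfl | ⟨v', l, rfl⟩
      · exact h0
      · rw [List.concat_eq_append, List.append_assoc, List.singleton_append] at halt hwt ⊢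
        have hl : alt (l :: w) = true := alt_suffix v' halt
        have hv' : v'.length < n := by
          rw [List.concat_eq_append, List.length_append, List.length_singleton] at hv
          omega
        have hchk : chk n (l :: w) = true := by
          cases l with
          | a => exact ha.resolve_left (by rw [hl]; decide)
          | b => exact hb.resolve_left (by rw [hl]; decide)
          | c => exact hc.resolve_left (by rw [hl]; decide)
          | d => exact hd.resolve_left (by rw [hl]; decide)
        exact ih (l :: w) hchk v' hv' halt hwt

theorem chk_true : chk 16 [] = true := by decide +kernel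

theorem small (w : List Lt) (halt : alt w = true) (hwt : wt w ≤ 30) :
    ∃ n, TT^[n] w = [] ∨ TT^[n] w = [.a, .c] ∨ TT^[n] w = [.a, .d] ∨ TT^[n] w = [.b] := by
  have h := chk_sound 16 [] chk_true w (by have := wt_ge w; omega) (by simpa using halt)
    (by simpa using hwt)
  rw [List.append_nil] at h
  refine ⟨5, ?_⟩
  simp only [tst, TTF_eq] at h
  have e : TT^[5] w = TT (TT (TT (TT (TT w)))) := by
    simp only [Function.iterate_succ, Function.iterate_zero, Function.comp_apply, id]
  rw [e]
  exact fin4_true _ h

theorem tw (h : G_WO) : G_TW := by
  obtain ⟨-, -, -, h4, -, h6, -, h8, -⟩ := h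
  have key : ∀ N : ℕ, ∀ w, wt w ≤ N → alt w = true →
      ∃ n, TT^[n] w = [] ∨ TT^[n] w = [.a, .c] ∨ TT^[n] w = [.a, .d] ∨ TT^[n] w = [.b] := by
    intro N
    induction N with
    | zero =>
      intro w hw halt
      exact small w halt (by omega)
    | succ N ih =>
      intro w hw halt
      by_cases h30 : wt w ≤ 30
      · exact small w halt h30
      · have e1 : wt (TT w) ≤ wt (sec false w) + wt (sec true w) := by
          have := h6 ((sec false w).reverse ++ sec true w)
          rw [wt_append, wt_reverse] at this
          exact this
        have e2 := h8 w halt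
        obtain ⟨n, hn⟩ := ih (TT w) (by omega) (h4 _)
        exact ⟨n + 1, hn⟩
  intro w hw
  exact key (wt w) w le_rfl hw

end Pool.Agent.Helper18.GR
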